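import Pool.Agent.U605.SoficR

/-!
# `p`-metric mean dimension equals metric mean dimension for all sofic actions

Given a dynamically generating continuous pseudometric `ρ`, we replace it by the slow pseudometric
`ρ'(x, y) = sup_k 2^(-k^2) |ρ(x, z_k) - ρ(y, z_k)|` for a dense sequence `(z_k)`.  It is again
dynamically generating, `ρ' ≤ ρ`, and it has only `exp(O(log(1/ε)^(3/2)))` cells at scale `ε`, so
that changing the scale from `ε` to `ε / log(1/ε)` turns `ρ'_p`-separation into
`ρ'_∞`-separation at a negligible cost.
-/

set_option autoImplicit false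

open scoped ENNReal
open Pool.Agent.U605.SoficP

namespace Pool.Agent.Results.MP_9d0111_an.PMetricEq

universe u v

/-- For every sofic approximation sequence of a group `G`, every action of `G` by homeomorphisms
on a compact metrizable space `X` and every `1 ≤ p < ∞`, the `p`-metric mean dimension equals the
sofic metric mean dimension. -/
theorem result {G : Type u} {X : Type v} [Group G] [TopologicalSpace X] [CompactSpace X]
    [TopologicalSpace.MetrizableSpace X] [MulAction G X] [ContinuousConstSMul G X] (d : ℕ → ℕ)
    (σ : (i : ℕ) → G → Equiv.Perm (Fin (d i))) (hσ : IsSofic G d σ) (p : ℝ≥0∞) (h1 : 1 ≤ p)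
    (hp : p ≠ ∞) : mdimMP G X d σ p = mdimMP G X d σ ∞ :=
  mdimMP_eq hσ h1 hp

end Pool.Agent.Results.MP_9d0111_an.PMetricEq
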